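import Pool.Agent.MVD.Stmts

/-!
# Squad MVD, row INS: words with two blocks as substitution instances
-/

namespace Pool.Agent.MVD.H97

open Pool.Agent.MVD Pool.Agent.Helper14_MV Pool.Agent.Helper2_MV

/-- the skeleton lemma -/
theorem skel (f : ℕ → ℕ) (p : List ℕ) : ∀ E : List ℕ, E.Nodup →
    (∀ a ∈ E, ∀ b ∈ E, f a = f b → a = b) → (∀ e ∈ E, f e ∈ p) →
      ∃ (g0 P : List ℕ) (h : ℕ → List ℕ), P.Perm E ∧ p = g0 ++ P.flatMap (fun e => f e :: h e) := by
  induction p with
  | nil =>
    intro E _ _ hE
    cases E with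
    | nil => exact ⟨[], [], fun _ => [], List.Perm.refl _, rfl⟩
    | cons e E => exact absurd (hE e (List.mem_cons_self ..)) (List.not_mem_nil)
  | cons a p ih =>
    intro E hnd hinj hE
    by_cases hex : ∃ e ∈ E, f e = a
    · obtain ⟨e, he, hea⟩ := hex
      have hE' : ∀ b ∈ E.erase e, b ≠ e ∧ b ∈ E := by
        intro b hb
        exact (hnd.mem_erase_iff).1 hb
      obtain ⟨g0, P, h, hP, hp⟩ := ih (E.erase e) (hnd.erase e)
        (fun c hc b hb => hinj c (hE' c hc).2 b (hE' b hb).2) (by
          intro b hb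
          obtain ⟨h1, h2⟩ := hE' b hb
          rcases List.mem_cons.1 (hE b h2) with h3 | h3
          · exact absurd (hinj b h2 e he (h3.trans hea.symm)) h1
          · exact h3)
      have hePn : e ∉ P := by
        intro hm
        exact (hE' e (hP.mem_iff.1 hm)).1 rfl
      refine ⟨[], e :: P, fun c => if c = e then g0 else h c, ?_, ?_⟩
      · exact (List.Perm.cons e hP).trans (List.perm_cons_erase he).symm
      · rw [List.nil_append, List.flatMap_cons]
        have h4 : P.flatMap (fun c => f c :: (if c = e then g0 else h c)) =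
            P.flatMap (fun c => f c :: h c) := by
          apply List.flatMap_congr
          intro c hc
          have h6 : c ≠ e := by
            intro h5
            rw [h5] at hc
            exact hePn hc
          rw [if_neg h6]
        have h7 : (fun c => if c = e then g0 else h c) e = g0 := if_pos rfl
        rw [h4, h7, hea, List.cons_append, ← hp]
    · obtain ⟨g0, P, h, hP, hp⟩ := ih E hnd hinj (by
        intro b hb
        rcases List.mem_cons.1 (hE b hb) with h3 | h3
        · exact absurd ⟨b, hb, h3⟩ hex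
        · exact h3)
      refine ⟨a :: g0, P, h, hP, ?_⟩
      rw [List.cons_append, ← hp]

theorem range_two (n : ℕ) : List.range (n + 2) = 0 :: 1 :: (List.range n).map (fun e => e + 2) := by
  rw [List.range_succ_eq_map, List.range_succ_eq_map, List.map_cons, List.map_map]
  rfl

theorem flat_part {g : ℕ → List ℕ} {f : ℕ → ℕ} {h : ℕ → List ℕ} {X L : List ℕ}
    (hg1 : ∀ e, g (3 * e + 1) = [f e]) {P : List ℕ}
    (hg2 : ∀ e ∈ P, g (3 * (e + 2) + 2) = h e) :
    (Bw (P.map (fun e => e + 2))
      (fun r => if r = 0 then X else if r = 1 then L else [3 * (r - 2) + 1])).flatMap g =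
      P.flatMap (fun e => f e :: h e) := by
  unfold Bw
  rw [List.flatMap_assoc, List.flatMap_map]
  apply List.flatMap_congr
  intro e he
  show List.flatMap g ((if e + 2 = 0 then X else if e + 2 = 1 then L else
    [3 * (e + 2 - 2) + 1]) ++ [3 * (e + 2) + 2]) = f e :: h e
  rw [if_neg (by omega), if_neg (by omega), List.flatMap_append, List.flatMap_cons,
    List.flatMap_nil, List.flatMap_cons, List.flatMap_nil, List.append_nil, List.append_nil,
    hg2 e he]
  have h1 : e + 2 - 2 = e := by omega
  rw [h1, hg1]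
  rfl

theorem Bw_append (R R' : List ℕ) (B : ℕ → List ℕ) : Bw (R ++ R') B = Bw R B ++ Bw R' B := by
  unfold Bw
  rw [List.flatMap_append]

theorem Bw_cons (r : ℕ) (R : List ℕ) (B : ℕ → List ℕ) :
    Bw (r :: R) B = B r ++ (3 * r + 2) :: Bw R B := by
  unfold Bw
  rw [List.flatMap_cons, List.append_assoc]
  rfl

theorem ins : InsStmt := by
  intro p q r D x y hD hxy hmem
  set f : ℕ → ℕ := fun e => D.getD e 0 with hf
  have hfe : ∀ e (he : e < D.length), f e = D[e] := by
    intro e he
    rw [hf]
    exact List.getD_eq_getElem D 0 he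
  have hinj : ∀ a, a < D.length → ∀ b, b < D.length → f a = f b → a = b := by
    intro a ha b hb hab
    rw [hfe a ha, hfe b hb] at hab
    exact (List.Nodup.getElem_inj_iff hD).1 hab
  set n := D.length with hn
  -- the three parts
  set E1 := (List.range n).filter (fun e => decide (f e ∈ p)) with hE1
  set E2 := (List.range n).filter (fun e => decide (f e ∉ p ∧ f e ∈ q)) with hE2
  set E3 := (List.range n).filter (fun e => decide (f e ∉ p ∧ f e ∉ q)) with hE3
  have m1 : ∀ e, e ∈ E1 ↔ e < n ∧ f e ∈ p := by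
    intro e; rw [hE1, List.mem_filter, List.mem_range, decide_eq_true_iff]
  have m2 : ∀ e, e ∈ E2 ↔ e < n ∧ (f e ∉ p ∧ f e ∈ q) := by
    intro e; rw [hE2, List.mem_filter, List.mem_range, decide_eq_true_iff]
  have m3 : ∀ e, e ∈ E3 ↔ e < n ∧ (f e ∉ p ∧ f e ∉ q) := by
    intro e; rw [hE3, List.mem_filter, List.mem_range, decide_eq_true_iff]
  have n1 : E1.Nodup := List.nodup_range.filter _
  have n2 : E2.Nodup := List.nodup_range.filter _
  have n3 : E3.Nodup := List.nodup_range.filter _
  obtain ⟨g1, P1, h1, hP1, hp⟩ := skel f p E1 n1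
    (fun a ha b hb => hinj a ((m1 a).1 ha).1 b ((m1 b).1 hb).1) (fun e he => ((m1 e).1 he).2)
  obtain ⟨g2, P2, h2, hP2, hq⟩ := skel f q E2 n2
    (fun a ha b hb => hinj a ((m2 a).1 ha).1 b ((m2 b).1 hb).1) (fun e he => ((m2 e).1 he).2.2)
  obtain ⟨g3, P3, h3, hP3, hr⟩ := skel f r E3 n3
    (fun a ha b hb => hinj a ((m3 a).1 ha).1 b ((m3 b).1 hb).1) (by
      intro e he
      have h4 := (m3 e).1 he
      rcases hmem (f e) (by rw [hfe e h4.1]; exact List.getElem_mem _) with h5 | h5 | h5
      · exact absurd h5 h4.2.1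
      · exact absurd h5 h4.2.2
      · exact h5)
  have k1 : ∀ e, e ∈ P1 ↔ e < n ∧ f e ∈ p := fun e => hP1.mem_iff.trans (m1 e)
  have k2 : ∀ e, e ∈ P2 ↔ e < n ∧ (f e ∉ p ∧ f e ∈ q) := fun e => hP2.mem_iff.trans (m2 e)
  have k3 : ∀ e, e ∈ P3 ↔ e < n ∧ (f e ∉ p ∧ f e ∉ q) := fun e => hP3.mem_iff.trans (m3 e)
  have hall : (P1 ++ (P2 ++ P3)).Perm (List.range n) := by
    rw [List.perm_ext_iff_of_nodup ?_ List.nodup_range]
    · intro e
      rw [List.mem_append, List.mem_append, List.mem_range, k1, k2, k3]
      tauto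
    · rw [List.nodup_append']
      refine ⟨hP1.nodup_iff.2 n1, ?_, ?_⟩
      · rw [List.nodup_append']
        refine ⟨hP2.nodup_iff.2 n2, hP3.nodup_iff.2 n3, ?_⟩
        intro e h5 h6
        exact ((k3 e).1 h6).2.2 ((k2 e).1 h5).2.2
      · intro e h5 h6
        rcases List.mem_append.1 h6 with h7 | h7
        · exact ((k2 e).1 h7).2.1 ((k1 e).1 h5).2
        · exact ((k3 e).1 h7).2.1 ((k1 e).1 h5).2
  set s : ℕ → ℕ := fun e => e + 2 with hs
  set H : ℕ → List ℕ := fun e => if f e ∈ p then h1 e else if f e ∈ q then h2 e else h3 e with hH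
  set g : ℕ → List ℕ := fun c => if c = 0 then [x] else if c = 3 then [y] else
    if c % 3 = 1 then [f (c / 3)] else if c = 2 then g2 else if c = 5 then g3 else H (c / 3 - 2)
    with hg
  have ga : ∀ e, g (3 * e + 1) = [f e] := by
    intro e
    simp only [hg]
    rw [if_neg (by omega), if_neg (by omega), if_pos (by omega)]
    have : (3 * e + 1) / 3 = e := by omega
    rw [this]
  have gb : ∀ e, g (3 * (e + 2) + 2) = H e := by
    intro e
    simp only [hg]
    rw [if_neg (by omega), if_neg (by omega), if_neg (by omega), if_neg (by omega),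
      if_neg (by omega)]
    have : (3 * (e + 2) + 2) / 3 - 2 = e := by omega
    rw [this]
  have gc : g 2 = g2 := by simp [hg]
  have gd : g 5 = g3 := by simp [hg]
  have not1 : ∀ (P : List ℕ), 1 ∉ P.map s := by
    intro P hm
    rw [List.mem_map] at hm
    obtain ⟨e, _, he⟩ := hm
    simp only [hs] at he
    omega
  refine ⟨P1.map s ++ 0 :: (P2.map s ++ 1 :: P3.map s), g, g1, ?_, ?_, ?_, ?_, ?_, ?_, ?_⟩
  · rw [range_two]
    refine List.perm_middle.trans (List.Perm.cons 0 ?_)
    rw [← List.append_assoc]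
    refine List.perm_middle.trans (List.Perm.cons 1 ?_)
    rw [List.append_assoc, ← List.map_append, ← List.map_append]
    exact hall.map s
  · exact ⟨P1.map s, P2.map s, P3.map s, rfl⟩
  · intro X L
    unfold Eg
    rw [Bw_append, Bw_cons, Bw_append, Bw_cons, List.flatMap_append, List.flatMap_append,
      List.flatMap_cons, List.flatMap_append, List.flatMap_append, List.flatMap_cons]
    have e1 := flat_part (X := X) (L := L) (h := h1) ga (P := P1) (by
      intro e he
      rw [gb]
      simp only [hH]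
      rw [if_pos ((k1 e).1 he).2])
    have e2 := flat_part (X := X) (L := L) (h := h2) ga (P := P2) (by
      intro e he
      rw [gb]
      simp only [hH]
      rw [if_neg ((k2 e).1 he).2.1, if_pos ((k2 e).1 he).2.2])
    have e3 := flat_part (X := X) (L := L) (h := h3) ga (P := P3) (by
      intro e he
      rw [gb]
      simp only [hH]
      rw [if_neg ((k3 e).1 he).2.1, if_neg ((k3 e).1 he).2.2])
    simp only [hs]
    rw [e1, e2, e3]
    have z0 : 3 * 0 + 2 = 2 := rfl
    have z1 : 3 * 1 + 2 = 5 := rfl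
    rw [z0, z1, gc, gd]
    simp only [↓reduceIte, one_ne_zero]
    nth_rewrite 1 [hp]
    nth_rewrite 1 [hq]
    nth_rewrite 1 [hr]
    simp only [List.append_assoc]
  · simp [hg]
  · simp [hg]
  · intro e he
    rw [ga, hfe e he]
  · intro e he
    rw [← hfe e he]
    constructor
    · rintro ⟨A, B, C, hR⟩
      have hR' : (P1.map s ++ 0 :: P2.map s) ++ 1 :: P3.map s = (A ++ (e + 2) :: B) ++ 1 :: C := by
        rw [List.append_assoc, List.append_assoc]
        exact hR
      have hno : 1 ∉ P1.map s ++ 0 :: P2.map s := by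
        rw [List.mem_append, List.mem_cons]
        rintro (h5 | h5 | h5)
        · exact not1 _ h5
        · omega
        · exact not1 _ h5
      have h5 := ((List.append_cons_inj_of_notMem hno (not1 P3)).1 hR').1
      have h6 : e + 2 ∈ P1.map s ++ 0 :: P2.map s := by
        rw [h5]; simp
      rw [List.mem_append, List.mem_cons, List.mem_map, List.mem_map] at h6
      rcases h6 with ⟨b, hb, hb'⟩ | h6 | ⟨b, hb, hb'⟩
      · simp only [hs] at hb'
        have : b = e := by omega
        subst this
        exact Or.inl ((k1 b).1 hb).2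
      · omega
      · simp only [hs] at hb'
        have : b = e := by omega
        subst this
        exact Or.inr ((k2 b).1 hb).2.2
    · intro hpq
      have h6 : e + 2 ∈ P1.map s ++ 0 :: P2.map s := by
        rw [List.mem_append, List.mem_cons, List.mem_map, List.mem_map]
        by_cases h7 : f e ∈ p
        · exact Or.inl ⟨e, (k1 e).2 ⟨he, h7⟩, rfl⟩
        · rcases hpq with h8 | h8
          · exact absurd h8 h7
          · exact Or.inr (Or.inr ⟨e, (k2 e).2 ⟨he, h7, h8⟩, rfl⟩)
      obtain ⟨A, B, hAB⟩ := List.append_of_mem h6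
      refine ⟨A, B, P3.map s, ?_⟩
      have h9 : P1.map s ++ 0 :: (P2.map s ++ 1 :: P3.map s) =
          (P1.map s ++ 0 :: P2.map s) ++ 1 :: P3.map s := by
        rw [List.append_assoc]; rfl
      rw [h9, hAB, List.append_assoc]
      rfl

end Pool.Agent.MVD.H97
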